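import Pool.Agent.Q36.GW.Tf

/-!
# Nonvanishing for varieties dominated by the product of a curve and arbitrary varieties

Let `C` be a curve or a point (any curve, rational or not), and `W 1, ..., W s` arbitrary projective
manifolds, each of which is uniruled, or such that the canonical forms of `W i` separate `m i ≥ 1` points
in an open set: `m i` different general points impose independent conditions on `H⁰(W i, K)`. (For
`m i = 1` this is `p_g(W i) > 0`; a curve of gonality greater than `m i` has this property; for a smooth
hypersurface of degree `D` in `P^(N+1)` one may take `m i = D - N - 1`.) Let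
`Z = C × W 1 × ... × W s ⇢ X` be any dominant rational map of finite degree to a projective manifold `X`;
it need not be a quotient by a group, and there is no bound for the number of the points of a general
fibre which differ only in the coordinate in `C`. The condition is about the coordinates in the `W i`
only:

(C) For a general point of `X` there are a point `z` of `Z` over it and sets `K i` of fewer than `m i`
points of `W i`, not containing the coordinate `z i`, such that each point `z'` of `Z` over the same point
of `X` has the same coordinates in all the `W i` as `z`, or has a coordinate `z' i` in `K i`, for some `i`.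

For a set `Q` of indices let `r Q` be the number of the different `Q`-coordinates of the points of a
general fibre. By Hall's theorem on the marriage problem (C) holds if there is a set `B` of indices
(which may be empty) such that

* `r {i} ≤ m i` for all `i` in `B`, and
* `r (all) ≤ r (complement of Q) * (1 + ∑ j ∈ Q, (m j - 1))` for all `Q` disjoint from `B`.

The theorem: if (C) holds then `κ(X) = -∞` if and only if `X` is uniruled, in the following strong
form: `p_g(X) = 0`, `κ(X) = -∞`, `K_X` not pseudo-effective, `ν(X) = -∞`, `X` uniruled are equivalent,
and equivalent to: some `W i` is uniruled, or `C` is a curve and the generic fibre of the fibration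
`X' ⇢ W 1 × ... × W s` has genus zero, `X'` being the image of `Z` in `X × W 1 × ... × W s`.

Proof: exterior products of canonical forms `f` of `C` and `f i` of the `W i` are canonical forms of
`Z`, and their traces are canonical forms of `X`. If all these traces vanish, there is for each `f` a
linear relation between the products of the values of the `f i` at the points of a general fibre of
`X' ⇢ X`, with the conjugates of the relative trace of `f` as coefficients. The separation property gives
forms `f i` which vanish at the points of `K i` but not at `z i`, so that the relative traces of all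
the canonical forms of `C` vanish. If `C` is a curve, the generic fibre of `X' ⇢ W 1 × ... × W s` has genus
zero then: if its genus was positive, it would have a differential, and, being dominated by the constant
curve `C`, one that is the trace of a differential of `C`.

The function-field language of the starting repository is used: `M` is the function field of `Z`,
generated by the function fields of `C` and of the `W i`, and `L` is the function field of `X`.
-/

set_option autoImplicit false
set_option linter.overlappingInstances false

open FF IntermediateField Pool.Agent.W619.PQ Pool.Agent.W619.TW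

namespace Pool.Agent.Results.MP_813db1_ag.CurveTimesVarieties

/-- Every nonconstant function on the curve with function field `F` has degree at least `γ`. -/
def GonalityGe (F : Type) [Field F] [Algebra ℂ F] (γ : ℕ) : Prop :=
  ∀ b : F, Transcendental ℂ b → γ ≤ Module.finrank ℂ⟮b⟯ F

/-- `p_g(X) > 0`: the projective manifolds with function field `K`, of dimension `n`, have a nonzero
canonical form. -/
def GenusPos (K : Type) [Field K] [Algebra ℂ K] (n : ℕ) : Prop :=
  ∃ ω : (Fin n → Derivation ℂ K K) → K, IsPluriForm ℂ K n 1 ω ∧
    (∀ v : Place ℂ K, IsDivisorial v n → RegularAt v n ω) ∧ ∃ D, ω D ≠ 0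

/-- The coefficients of the canonical forms of the projective manifold of dimension `d` with function
field `K`, with respect to the rational vector fields `E`. -/
def canonicalForms {K : Type} [Field K] [Algebra ℂ K] (d : ℕ) (E : Fin d → Derivation ℂ K K) :
    Set K :=
  {f | ∃ η : (Fin d → Derivation ℂ K K) → K, IsPluriForm ℂ K d 1 η ∧
    (∀ u : Place ℂ K, IsDivisorial u d → RegularAt u d η) ∧ η E = f}

/-- The canonical forms of the manifold with function field `K` separate `m` points in an open set:
the values of the canonical forms at at most `m` different generic points `φ i`, with coordinates in a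
field `Ω`, are linearly independent. (For the coefficients with respect to a frame `E`; this does not
depend on the choice of the frame.) -/
def SeparatesPoints (K : Type) [Field K] [Algebra ℂ K] (d m : ℕ) : Prop :=
  ∀ (y : Fin d → K) (E : Fin d → Derivation ℂ K K), IsTranscendenceBasis ℂ y →
    (∀ i j, E i (y j) = if i = j then 1 else 0) →
    ∀ (Ω : Type) [Field Ω] [Algebra ℂ Ω] (ι : Type) [Fintype ι] (φ : ι → (K →ₐ[ℂ] Ω))
      (c : ι → Ω), Function.Injective φ → Fintype.card ι ≤ m →
      (∀ f ∈ canonicalForms d E, ∑ i, c i * φ i f = 0) → ∀ i, c i = 0

/-- The generic fibre of a rational map from a variety with function field `L` to a variety with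
function field `E`, of dimension one less, has genus zero: `L` is contained in the field of rational
functions of one variable over an algebraic extension `A` of `E`. -/
def GenusZeroOver {L : Type} [Field L] [Algebra ℂ L] (E : IntermediateField ℂ L) : Prop :=
  ∃ (A : Type) (_ : Field A) (_ : Algebra E A), Algebra.IsAlgebraic E A ∧
    Nonempty (L →ₐ[E] RatFunc A)

section

variable (L : Type) {M : Type} [Field L] [Field M] [Algebra ℂ L] [Algebra ℂ M] [Algebra L M]
  [IsScalarTower ℂ L M] {s : ℕ} (W : Fin s → IntermediateField ℂ M)

/-- The function field of `X'`, the image of `Z` in the product of `X` and the `W i`. -/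
noncomputable def xPrime : IntermediateField L M := IntermediateField.adjoin L {z : M | ∃ i, z ∈ W i}

/-- The function field of the product of the `W i`, as a subfield of the function field of `X'`. -/
noncomputable def baseField : IntermediateField ℂ (xPrime L W) :=
  (⨆ i, W i).comap ((xPrime L W).val.restrictScalars ℂ)

/-- The number of the different `Q`-coordinates of the points of a general fibre of `Z ⇢ X`: the degree
over `X` of the image of `Z` in the product of `X` and the `W i`, `i ∈ Q`. -/
noncomputable def coordinates (Q : Finset (Fin s)) : ℕ :=
  Module.finrank L (IntermediateField.adjoin L {z : M | ∃ i ∈ Q, z ∈ W i})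

/-- The coordinate in `W i` of a point `z` of the general fibre of `Z ⇢ X`; the points of the general
fibre are the embeddings of `M` over `L`. -/
noncomputable def coordinate (i : Fin s) (z : M →ₐ[L] AlgebraicClosure M) : W i →ₐ[ℂ] AlgebraicClosure M :=
  (z.restrictScalars ℂ).comp (W i).val

/-- There are a point `z` of the general fibre of `Z ⇢ X` and sets `K i` of fewer than `m i` points of
`W i`, not containing the coordinate of `z`, such that each point of the general fibre has the same
coordinates in the `W i` as `z` or has a coordinate in one of the sets `K i`. -/
def Covered (m : Fin s → ℕ) : Prop :=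
  ∃ (z : M →ₐ[L] AlgebraicClosure M) (K : ∀ i, Finset (W i →ₐ[ℂ] AlgebraicClosure M)),
    (∀ i, coordinate L W i z ∉ K i) ∧ (∀ i, (K i).card + 1 ≤ m i) ∧
    ∀ z' : M →ₐ[L] AlgebraicClosure M, (∀ i, coordinate L W i z' = coordinate L W i z) ∨
      ∃ i, coordinate L W i z' ∈ K i

end

/-- **Nonvanishing for varieties dominated by the product of a curve and arbitrary varieties.** Let `C`
be the function field of a curve (`c = 1`) or a point (`c = 0`), and `W i`, `i < s`, function fields of
projective manifolds of dimensions `d i`, each of which is uniruled, or has canonical forms which
separate `m i` points, or is a curve of gonality greater than `m i`. Let `M` be the function field of the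
product, of dimension `c + ∑ d i`, and `L` the function field of a projective manifold `X` with a
dominant rational map of finite degree from the product to `X`. (1) If the condition `Covered` holds
then the following are equivalent: `p_g(X) = 0`; `κ(X) = -∞`; `K_X` is not pseudo-effective; the
numerical dimension of `K_X` is `-∞`; `X` is uniruled; some `W i` is uniruled, or `C` is a curve and the
generic fibre of `X'` over the product of the `W i` has genus zero. (2) The condition `Covered` holds if
there is a set `B` of indices such that the number of the `i`-th coordinates on a general fibre is at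
most `m i` for `i ∈ B`, and for every set `Q` of indices disjoint from `B` the number of the coordinates
in all the `W i` is at most `1 + ∑ j ∈ Q, (m j - 1)` times the number of the coordinates outside `Q`. -/
theorem result {L M : Type} [Field L] [Field M] [Algebra ℂ L] [Algebra ℂ M] [Algebra L M]
    [IsScalarTower ℂ L M] [FiniteDimensional L M] (c : ℕ) (hc : c ≤ 1)
    (C : IntermediateField ℂ M) (hessC : Algebra.EssFiniteType ℂ C) (hC : Algebra.trdeg ℂ C = c)
    (s : ℕ) (d : Fin s → ℕ) (hM : Algebra.trdeg ℂ M = (c + ∑ i, d i : ℕ))
    (W : Fin s → IntermediateField ℂ M) (hess : ∀ i, Algebra.EssFiniteType ℂ (W i))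
    (hd : ∀ i, Algebra.trdeg ℂ (W i) = d i) (hsup : C ⊔ ⨆ i, W i = ⊤) (m : Fin s → ℕ)
    (hm : ∀ i, 1 ≤ m i)
    (hW : ∀ i, IsUniruled ℂ (W i) (d i) ∨ SeparatesPoints (W i) (d i) (m i) ∨
      (IsFF ℂ (W i) ∧ GonalityGe (W i) (m i + 1))) :
    (Covered L W m →
      List.TFAE [¬ GenusPos L (c + ∑ i, d i), KodairaNeg ℂ L (c + ∑ i, d i),
        ¬ IsPsef ℂ L (c + ∑ i, d i) (fun _ => False), NumNeg ℂ L (c + ∑ i, d i) (fun _ => False),
        IsUniruled ℂ L (c + ∑ i, d i),
        (∃ i, IsUniruled ℂ (W i) (d i)) ∨ (c = 1 ∧ GenusZeroOver (baseField L W))]) ∧
    ∀ B : Finset (Fin s), (∀ i ∈ B, coordinates L W {i} ≤ m i) →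
      (∀ Q : Finset (Fin s), Disjoint Q B →
        coordinates L W Finset.univ ≤ coordinates L W Qᶜ * (1 + ∑ j ∈ Q, (m j - 1))) →
      Covered L W m := by
  refine ⟨fun hcov => Q36.GW.tfaeCW C W hc hC hd hM hsup (fun hU i => ?_) hcov,
    fun B hB hQ => Q36.GW.cov_of_hall W hm B hB hQ⟩
  rcases (hW i).resolve_left (hU i) with h | ⟨h1, h2⟩
  · exact h
  · have h3 : d i = 1 := by
      have h4 := IsFF.trdeg (k := ℂ) (K := W i)
      rw [hd i] at h4
      exact_mod_cast h4
    have h5 : Q36.GV.CanSepJ ℂ (W i) 1 (m i) := Q36.GV.sep_curve fun b hb => h2 b hb
    rw [h3]
    exact h5.canSep

end Pool.Agent.Results.MP_813db1_ag.CurveTimesVarieties
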