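import Pool.Agent.Q36.PT.Fi

/-!
# Effective non-vanishing for quotients of products of curves: the twelfth plurigenus

For the projective manifolds `X` birational to a quotient `(C 1 × ... × C n) / G` of a product of
arbitrary curves by an arbitrary finite group `G` (which may permute the factors and may have fixed
points, in codimension at least `N`): `K_X` is pseudo-effective if and only if `12 K_X` has a nonzero
section, with the exponent `12` of Castelnuovo and Enriques for surfaces, in every dimension. For the
quotients `Z / G` of the generically finite covers `Z` of products of irrational curves `P_m ≠ 0` for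
all `m` divisible by `12`.

The language and the definitions of `Pool.Agent.W619` (the file `MP_813db1_ag/MixedQuotients.lean`)
are used; that file has the nonvanishing of some plurigenus, without a bound for its index. The
exponent `12` does not depend on the dimension, on the curves or on the group.
-/

set_option autoImplicit false
set_option linter.overlappingInstances false

open FF IntermediateField Pool.Agent.W619.PQ Pool.Agent.W619.PL Pool.Agent.W619.TW
  Pool.Agent.W619.X Pool.Agent.W619.Y

namespace Pool.Agent.Results.MP_813db1_ag.TwelfthPlurigenus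

/-- The plurigenus `P_m` is not zero: there is a nonzero `m`-fold pluricanonical form which is
regular along all divisorial places. -/
def PlurigenusPos (k : Type*) (K : Type*) [Field k] [Field K] [Algebra k K] (n m : ℕ) : Prop :=
  ∃ ω : (Fin n → Derivation k K K) → K, IsPluriForm k K n m ω ∧
    (∀ v : Place k K, IsDivisorial v n → RegularAt v n ω) ∧ ∃ D, ω D ≠ 0

/-- Let `F i` (`i < n`) be the function fields of curves `C i`, `L` the function field of a
projective variety `Z` of dimension `n` with a generically finite rational map to the product of the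
curves, `G` a finite group of automorphisms of `L` which permutes the curves through `σ`, and `X` a
projective manifold birational to `Z / G`. Assume `MixedNonneg`: for some `N ≥ 2` the fixed locus of
each `g ≠ 1` in `G` on the product of the curves is empty or of codimension at least `N` (for
instance `G` acts freely), and for each `i`: `N ≥ 6` (`4` if `3` does not divide the order of `G`, `3`
if the order is odd), or the quotient of `C i` by its stabilizer is irrational or has at least `4`
branch points, or it has an orbifold divisor of nonnegative degree with coefficients at most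
`1 - 1 / N`, or `C i` is rational.

(1) If none of the curves is rational then `P_m(X) ≠ 0` for all `m` divisible by `12`.

(2) If `Z` is the product of the curves then the following are equivalent: `K_X` is
pseudo-effective; `K_X` is `ℚ`-effective; `P₁₂(X) ≠ 0`; `ν(X) ≠ -∞`; `X` is not uniruled; none of the
curves is rational. -/
theorem result {L : Type} [Field L] [Algebra ℂ L] (n : ℕ) (hn : Algebra.trdeg ℂ L = n)
    (F : Fin n → IntermediateField ℂ L) (hF : ∀ i, IsFF ℂ (F i))
    (halg : Algebra.IsAlgebraic ↥(⨆ i, F i) L)
    (G : Subgroup (L ≃ₐ[ℂ] L)) [Finite G] (σ : G →* Equiv.Perm (Fin n))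
    (hσ : ∀ (g : G) i, ∀ z ∈ F i, (g : L ≃ₐ[ℂ] L) z ∈ F (σ g i))
    (h : MixedNonneg G σ F) :
    ((∀ i, ¬ ∃ t : F i, ℂ⟮t⟯ = ⊤) → ∀ m, 12 ∣ m → PlurigenusPos ℂ (fixedField G) n m) ∧
    (⨆ i, F i = ⊤ → List.TFAE [IsPsef ℂ (fixedField G) n (fun _ => False),
      ¬ KodairaNeg ℂ (fixedField G) n, PlurigenusPos ℂ (fixedField G) n 12,
      ¬ NumNeg ℂ (fixedField G) n (fun _ => False),
      ¬ IsUniruled ℂ (fixedField G) n, ∀ i, ¬ ∃ t : F i, ℂ⟮t⟯ = ⊤]) := by
  obtain ⟨h1, h2⟩ := Q36.PT.criterion12 hn F halg G σ hσ h
  refine ⟨h1, fun hsup => ?_⟩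
  have h3 := h2 hsup
  have a : ¬ PlurigenusPos ℂ (fixedField G) n 12 ↔ KodairaNeg ℂ (fixedField G) n := h3.out 0 1
  have b : ¬ PlurigenusPos ℂ (fixedField G) n 12 ↔ IsUniruled ℂ (fixedField G) n := h3.out 0 2
  have c : ¬ PlurigenusPos ℂ (fixedField G) n 12 ↔
    ¬ IsPsef ℂ (fixedField G) n (fun _ => False) := h3.out 0 3
  have d : ¬ PlurigenusPos ℂ (fixedField G) n 12 ↔
    NumNeg ℂ (fixedField G) n (fun _ => False) := h3.out 0 4
  have e : ¬ PlurigenusPos ℂ (fixedField G) n 12 ↔ ∃ i, ∃ t : F i, ℂ⟮t⟯ = ⊤ := h3.out 0 5
  tfae_have 1 ↔ 3 := (not_iff_not.1 c).symm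
  tfae_have 2 ↔ 3 := by rw [← a, not_not]
  tfae_have 4 ↔ 3 := by rw [← d, not_not]
  tfae_have 5 ↔ 3 := by rw [← b, not_not]
  tfae_have 6 ↔ 3 := by rw [← not_exists, ← e, not_not]
  tfae_finish

end Pool.Agent.Results.MP_813db1_ag.TwelfthPlurigenus
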