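import Pool.Agent.Q57.EI.Top

/-!
# Uniform nonvanishing for abelian covers of products of projective spaces

Let `F i` be a form of degree `d i` in `n i + 1` variables whose zero set in the projective
`n i`-space is a smooth hypersurface, and let `H i` be the cyclic hypersurface `w ^ (d i) = F i` in
the projective `(n i + 1)`-space. Let `X` be a compact complex manifold which is bimeromorphic to a
quotient `(H 1 × ... × H r) / G`, where `G` is any group of diagonal automorphisms
`w i ↦ ζ i * w i`, `ζ i ^ (d i) = 1`. Equivalently, the field `K` of the meromorphic functions of the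
Moishezon manifold `X` is generated by the affine coordinates `x i j / x i 0` of the product of the
projective `n i`-spaces and by roots `z j`,
`z j ^ (m j) = ∏ i, (F i (x i) / x i 0 ^ (d i)) ^ (a j i)`, where `m j` divides `a j i * d i`: the
abelian covers of the product of the projective spaces which are branched along the hypersurfaces
`F i = 0` of the factors. There is no condition on the dimensions and the degrees; the quotients can
have arbitrary (also non-canonical) singularities, so that `κ (X)` depends on the group `G`.

**The question.** Q1 asks, for `X` in class `𝒞`, if `K_X` is `ℚ`-effective whenever it is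
pseudo-effective. We prove this for the (Moishezon) manifolds `X` above, with a multiple which depends
only on the dimension.

**The theorem.** Let `N = dim X` and `bound N = 2 (N + 2) (2 (N + 1) (N + 2))!`. The following are
equivalent: `K_X` is pseudo-effective; `K_X` is `ℚ`-effective, that is, `κ (X) ≥ 0`; the plurigenus
`P_m (X)` for `m = bound N` is not zero. So if `P_m (X) = 0` for this single `m` then `κ (X) = -∞`, and
(see the problem file) `X` is uniruled and carries a Gauduchon metric of positive total scalar
curvature. Moreover, if `K_X` is pseudo-effective then the image of the rational map which is given by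
the sections of `m K_X`, again with `m = bound N`, has the maximal dimension `κ (X)`, and it is the
numerical dimension `ν (X)`.

The degrees `d i` and the orders of the groups `G` are not bounded in terms of the dimension, and
the sections of the multiples of `K_X` correspond to lattice points in the multiples of a polytope
with unbounded denominators; the point is that there are such points with denominator `bound N`.
-/

set_option autoImplicit false

open FF MvPolynomial Pool.Agent.W602.GT

namespace Pool.Agent.Results.MP_813db1_ag.UniformNonvanishing

/-- The form `F` has no singular zeros: its partial derivatives have no common zero but `0`. -/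
def Smooth {n : ℕ} (F : MvPolynomial (Fin (n + 1)) ℂ) : Prop :=
  ∀ x : Fin (n + 1) → ℂ, x ≠ 0 → ∃ l, eval x (pderiv l F) ≠ 0

/-- The affine coordinates of the product of the projective spaces. -/
noncomputable def affine {r : ℕ} {n : Fin r → ℕ} {K : Type} [Field K]
    (x : ∀ i, Fin (n i + 1) → K) (b : (i : Fin r) × Fin (n i)) : K :=
  x b.1 b.2.succ / x b.1 0

/-- The multiple. -/
def bound (N : ℕ) : ℕ := 2 * (N + 2) * (2 * (N + 1) * (N + 2)).factorial

section sections

/-- `ω` is a section of `m K_X + j A`: a rational section of the `m`-th power of the canonical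
bundle (`IsPluri`: a function of `N` rational vector fields which is multiplied by `det B ^ m` under
a linear substitution `B`) whose order on the vector fields which are regular at `P` is at least `j`
times the order of one of the functions in `S`, for all prime divisors `P` over `X` (all divisorial
places `P` of `K`). Here `A` is the divisor which is generated by the finite set `S` of functions;
`A = 0` if `S = {1}`. -/
def IsSection {K : Type} [Field K] [Algebra ℂ K] (N : ℕ) (S : Finset K) (m j : ℕ)
    (ω : (Fin N → Derivation ℂ K K) → K) : Prop :=
  IsPluri m ω ∧ ∀ P : Place ℂ K, Divisorial N P → ∀ D : Fin N → Derivation ℂ K K,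
    (∀ c, DerReg P (D c)) → ω D = 0 ∨ ∃ s ∈ S, s ≠ 0 ∧ j * P.ord s ≤ P.ord (ω D)

variable (N : ℕ) (K : Type) [Field K] [Algebra ℂ K]

/-- The image of the rational map which is given by the sections of `m K_X` has dimension at least
`h`: there are sections of `m K_X` whose ratios contain `h` algebraically independent functions. For
`h = 0`: there is a nonzero section, that is, the plurigenus `P_m (X)` is not zero. -/
def ImageGe (m h : ℕ) : Prop :=
  ∃ ω : Fin (h + 1) → (Fin N → Derivation ℂ K K) → K, (∀ b, IsSection N {1} m 1 (ω b)) ∧
    ∃ D, ω 0 D ≠ 0 ∧ AlgebraicIndependent ℂ (fun b : Fin h => ω b.succ D / ω 0 D)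

/-- `ν (X) ≤ h`: for every divisor `A` there is a constant `C` such that
`h⁰ (m K_X + A) ≤ C m ^ h` for all `m ≥ 1`. -/
def NumericalLe (h : ℕ) : Prop :=
  ∀ S : Finset K, ∃ C : ℕ, ∀ m M : ℕ, 1 ≤ m →
    (∃ ω : Fin M → (Fin N → Derivation ℂ K K) → K, LinearIndependent ℂ ω ∧
      ∀ l, IsSection N S m 1 (ω l)) → M ≤ C * m ^ h

/-- `K_X` is pseudo-effective: there is a divisor `A` such that for all `M` a positive multiple of
`M K_X + A` is effective. -/
def Pseudoeffective : Prop :=
  ∃ S : Finset K, ∀ M : ℕ, ∃ j : ℕ, 1 ≤ j ∧ ∃ ω : (Fin N → Derivation ℂ K K) → K, ω ≠ 0 ∧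
    IsSection N S (j * M) j ω

end sections

/-- **Uniform nonvanishing.** Let `K` be the field of the meromorphic functions of a compact complex
manifold `X` of dimension `N` which is bimeromorphic to an abelian cover of the product of the
projective `n i`-spaces which is branched along smooth hypersurfaces `F i = 0` of the factors. Then
`K_X` is pseudo-effective if and only if `P_m (X) ≠ 0` for `m = bound N`, and in this case
the image of the rational map of `m K_X` has dimension `κ (X) = ν (X)`. -/
theorem result (r N R : ℕ) (n d : Fin r → ℕ) (hr : 1 ≤ r) (hn : ∀ i, 1 ≤ n i)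
    (hd : ∀ i, 1 ≤ d i) (hN : N = ∑ i, n i)
    (F : ∀ i, MvPolynomial (Fin (n i + 1)) ℂ) (hF : ∀ i, (F i).IsHomogeneous (d i))
    (hs : ∀ i, Smooth (F i)) (m : Fin R → ℕ) (hm : ∀ j, 1 ≤ m j) (a : Fin R → Fin r → ℕ)
    (hdiv : ∀ j i, m j ∣ a j i * d i)
    (K : Type) [Field K] [Algebra ℂ K] (x : ∀ i, Fin (n i + 1) → K) (hx0 : ∀ i, x i 0 ≠ 0)
    (hbas : IsTranscendenceBasis ℂ (affine x)) (z : Fin R → K)
    (hz : ∀ j, z j ^ m j = ∏ i, (aeval (x i) (F i) / x i 0 ^ d i) ^ a j i)
    (hgen : IntermediateField.adjoin ℂ (Set.range (affine x) ∪ Set.range z) = ⊤) :
    (Pseudoeffective N K ↔ ImageGe N K (bound N) 0) ∧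
      (Pseudoeffective N K → ∃ h, ImageGe N K (bound N) h ∧ NumericalLe N K h) :=
  Pool.Agent.Q57.EI.main_uni (N := N) hr hn hN hd hF hs hx0 hbas hm hdiv hz hgen

end Pool.Agent.Results.MP_813db1_ag.UniformNonvanishing
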